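import Pool.Agent.U136.DS.Gen2

set_option autoImplicit false

/-!
Project DX: the Navier-Stokes equations on the torus `(ℝ / 2πℤ) ^ 3` with an EXPLICIT dispersive
term, e.g. `ε (∂₁ ∂₂ ∂₃) ^ 5 u`. Statements of the parts of the proof.

Idea. In project DS every wave vector had to be in at most `B R ^ θ`, `θ < 2`, near-resonant triads
of size `R`. Here we allow `θ = 2` (the number of integer points near a surface): the gradient is
put on the shortest wave vector of the triad, and the critical term `‖∇u‖ ‖u‖_s ‖u‖_{s+1}` is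
absorbed by the dissipation and by Gronwall's lemma (`∫ ‖∇u‖² dt` is bounded by the energy). For
polynomial dispersion relations the degree bound `B R ^ 2` is a deterministic counting lemma.
-/

namespace Pool.Agent.U136.DX

open MeasureTheory Pool.Agent.N983.RT Pool.Agent.U136.DS

/-! ### The degree condition -/

open Classical in
/-- every wave vector is in at most `B 4 ^ c` triads `k, -(k + m), m` with `g ≠ 0` whose longest
member has length in `[2 ^ c, 2 ^ (c + 1))` -/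
def DegG (g : Wv → Wv → Wv → ℝ) (B : ℝ) : Prop := ∀ (c : ℕ) (m : Wv),
  (((cub (2 ^ (c + 1))).filter fun k => g k (-(k + m)) m ≠ 0 ∧ (4 : ℝ) ^ c ≤ mx k (-(k + m)) m ∧
    mx k (-(k + m)) m < (4 : ℝ) ^ (c + 1)).card : ℝ) ≤ B * (4 : ℝ) ^ c

/-! ### The near-resonant triads -/

/-- the length of a Fourier coefficient -/
noncomputable def ab (u : Fld) (k : Wv) : ℝ := Real.sqrt (∑ i, ‖u k i‖ ^ 2)

/-- (SYM) symmetrisation: the gradient goes to the shortest wave vector.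
Proof. `form g s n u = ∑_{k, l} g (u_k · l) |m| ^ (2 s) (u_l · u_m)`, `m = -(k + l)` (if `m ∉ cub n`
the term is `0`). Exchange `l` and `m` (`u_k · m = -u_k · l` since `u_k · k = 0`) and take the mean:
`form = 1/2 ∑ g (u_k · l) (|m| ^ (2 s) - |l| ^ (2 s)) (u_l · u_m)`. Cauchy-Schwarz:
`|u_k · l| = |u_k · m| ≤ |u_k| min(|l|, |m|)`, `|u_l · u_m| ≤ |u_l| |u_m|`, and
`||m| ^ (2 s) - |l| ^ (2 s)| ≤ mx ^ s` and `≤ |nsq m - nsq l| s mx ^ (s - 1) ≤ 2 s |k| mx ^ (s - 1/2)`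
because `nsq m - nsq l = -(m - l) · k`, `|m - l| ≤ 2 mx ^ (1/2)`. If `k` is the shortest use the last
bound and `min(|l|, |m|) ≤ mx ^ (1/2)`, otherwise `min(|l|, |m|) = mn ^ (1/2)` and the first one. -/
def S_SYM : Prop := ∀ g : Wv → Wv → Wv → ℝ, (∀ k l m, g k l m = g k m l) → ∀ s : ℕ, 1 ≤ s →
  ∃ C : ℝ, 0 ≤ C ∧ ∀ (n : ℕ) (u : Fld), Adm u → (∀ k, k ∉ cub n → u k = 0) →
    ‖form g s n u‖ ≤ C * ∑ k ∈ cub n, ∑ l ∈ cub n, |g k l (-(k + l))| *
      (mn k l (-(k + l)) ^ (1 / 2 : ℝ) * mx k l (-(k + l)) ^ s) *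
        (ab u k * ab u l * ab u (-(k + l)))

/-- (TRI) the sum over the near-resonant triads.
Proof. Split the triads according to which of `k, l, m = -(k + l)` is a shortest one (three cases,
equal up to a change of variables, `g`, `mn`, `mx` being symmetric); let `k` be the shortest. Split
into shells `4 ^ c ≤ mx < 4 ^ (c + 1)` (`mx ≥ 1` as `k ≠ 0`). In a shell `nsq l, nsq m ≥ mx / 4`, so
`l` and `m` lie in `Sh_c = {4 ^ c ≤ 4 nsq, nsq < 4 ^ (c + 1)}`. Cauchy-Schwarz over the pairs: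
`∑ |k| f_k 4 ^ ((c+1) s) f_l f_m ≤ 4 ^ ((c+1) s) (∑_{pairs} nsq k f_k ^ 2) ^ (1/2)
(∑_{l, m ∈ Sh_c} f_l ^ 2 f_m ^ 2) ^ (1/2) ≤ 4 ^ ((c+1) s) (B 4 ^ c ∑ nsq k f_k ^ 2) ^ (1/2)
∑_{Sh_c} f_l ^ 2`, by `DegG` for the wave vector `k` (for given `k` the partner runs over the triads
through `k`; use the symmetry of `g` and of `mx`). Now `4 ^ (c s) 2 ^ c ≤ 2 * 4 ^ s nsq l ^ (s+1/2)`
on `Sh_c`, each `l` is in at most two of the `Sh_c`, and
`∑ nsq ^ (s + 1/2) f ^ 2 ≤ (∑ nsq ^ s f ^ 2) ^ (1/2) (∑ nsq ^ (s + 1) f ^ 2) ^ (1/2)`. -/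
def S_TRI : Prop := ∀ (g : Wv → Wv → Wv → ℝ) (B : ℝ), (∀ k l m, g k l m = g l k m) →
  (∀ k l m, g k l m = g k m l) → (∀ k l m, |g k l m| ≤ 1) →
  (∀ k l m, k = 0 ∨ l = 0 ∨ m = 0 → g k l m = 0) → DegG g B → ∀ s : ℕ,
  ∃ C : ℝ, 0 ≤ C ∧ ∀ (n : ℕ) (f : Wv → ℝ), (∀ k, 0 ≤ f k) → (∀ k, k ∉ cub n → f k = 0) →
    ∑ k ∈ cub n, ∑ l ∈ cub n, |g k l (-(k + l))| *
      (mn k l (-(k + l)) ^ (1 / 2 : ℝ) * mx k l (-(k + l)) ^ s) * (f k * f l * f (-(k + l))) ≤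
    C * Real.sqrt (∑ k ∈ cub n, nsq k * f k ^ 2) *
      (Real.sqrt (∑ k ∈ cub n, nsq k ^ s * f k ^ 2) *
        Real.sqrt (∑ k ∈ cub n, nsq k ^ (s + 1) * f k ^ 2))

/-- (APRC) a priori bounds for the truncated systems, critical case.
Proof. As `t_APRD` (Pool/Agent/U741/DS/APRD.lean) for `Y = En s - 2 Re form(hnf) + K ≥ En s / 2`,
`K = 2 |C2|`, but now `Y' ≤ a + a E_1 Y` with a constant `a ≥ 0`, `E_1 = En 1 n (u t)`. The energy
satisfies `E_0' = -2 ν E_1` exactly (`flux` is `0`, `Er 1 = En 1`), so with `A = a / (2 ν)`, the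
function `W = Y exp (A E_0)` satisfies `W' = (Y' - 2 ν A E_1 Y) exp (A E_0) ≤ a exp (A M0)`, whence
`En s ≤ 2 Y ≤ 2 W ≤ 2 (W 0 + a exp (A M0) T)`. The error term `C (1 + E_1 E_s)` of the third
estimate is at most `C + 2 C E_1 Y`. -/
def S_APRC : Prop := S_SUM → S_ALG → ∀ (ν : ℝ) (lam : Wv → ℝ) (c₁ τ : ℝ), 0 < ν → Disp lam →
  0 < c₁ →
  (∀ s : ℕ, 2 ≤ s → ∀ M ε : ℝ, 0 < ε → ∃ C : ℝ, ∀ (n : ℕ) (u : Fld), Adm u →
    (∀ k, k ∉ cub n → u k = 0) → En 0 n u ≤ M →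
      ‖form (hnf lam c₁ τ) s n u‖ ≤ ε * En s n u + C ∧
      ‖dform (hnf lam c₁ τ) s n u (rhs (cutg n one) ν 1 u)‖ ≤ ε * Er ((s : ℝ) + 1) n u + C ∧
      ‖form (near lam c₁ τ) s n u‖ ≤ ε * Er ((s : ℝ) + 1) n u + C * (1 + En 1 n u * En s n u)) →
  S_DQ →
  ∀ u₀ : Fld, Adm u₀ → Rapid u₀ → ∀ (s : ℕ) (T : ℝ), ∃ C : ℝ, ∀ (n : ℕ) (u : ℝ → Fld),
    IsSolD (cutg n one) ν lam u → u 0 = cut n u₀ → (∀ t, 0 ≤ t → ∀ k, k ∉ cub n → u t k = 0) →
      ∀ t, 0 ≤ t → t ≤ T → En s n (u t) ≤ C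

/-! ### Counting integer points near polynomial surfaces -/

/-- a polynomial of degree at most `D` in each coordinate -/
def PolyD (D : ℕ) (P : Wv → ℝ) : Prop := ∀ (k : Wv) (i : Fin 3), ∃ q : Polynomial ℝ,
  q.natDegree ≤ D ∧ ∀ t : ℤ, P (Function.update k i t) = q.eval (t : ℝ)

/-- the box `{0, ..., N} ^ 3` -/
noncomputable def box (N : ℕ) : Finset Wv := Fintype.piFinset fun _ => Finset.Icc (0 : ℤ) (N : ℤ)

/-- (CNT3) integer points where a polynomial is small.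
Proof. Let `k ∈ A` fail the condition `∀ y ∈ box N, |P (k + y)| ≤ h`. (a) If
`|P (k + j e₂)| > h` for some `0 ≤ j ≤ N` (third coordinate), let `j ≥ 1` be minimal; then
`z = k 2 + j - 1` is a run end: `|P| ≤ h` at `z` and `|P| > h` at `z + 1` on the line with the same
first two coordinates. For a polynomial `q` of degree `≤ D` there are at most `2 D` integers `z` with
`|q z| ≤ h < |q (z + 1)|`: `q ^ 2 - h ^ 2` (here `0 ≤ h`) has a root in `[z, z + 1)` and is not the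
zero polynomial. So there are at most `2 D N (2 R + 1) ^ 2` such `k`. (b) Otherwise if for some
`i ≤ N` some `j ≤ N` has `|P (k + i e₁ + j e₂)| > h`, take `i ≥ 1` minimal: then for this `j` the
polynomial `t ↦ P (k 0, t, k 2 + j)` has a run end at `t = k 1 + i - 1`: at most
`2 D N (N + 1) (2 R + 1) ^ 2` such `k`. (c) Otherwise the same in the first coordinate: at most
`2 D N (N + 1) ^ 2 (2 R + 1) ^ 2`. -/
def S_CNT3 : Prop := ∀ D N : ℕ, ∃ C : ℝ, 0 ≤ C ∧ ∀ P : Wv → ℝ, PolyD D P → ∀ (h : ℝ) (R : ℕ),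
  1 ≤ R → ∀ A : Finset Wv, A ⊆ cub R → (∀ k ∈ A, |P k| ≤ h) →
    (A.card : ℝ) ≤ C * (R : ℝ) ^ 2 +
      ((A.filter fun k => ∀ y ∈ box N, |P (k + y)| ≤ h).card : ℝ)

/-- (MON) the monomials of degree five separate integer points.
Proof. Let `X` be the largest of all `|k i|, |k' i|`, attained at the index `i` (by symmetry for
`k`). If `k i ≠ k' i` take `β = 5 e_i`: `|x ^ 5 - y ^ 5| = |x - y| (x^4 + x^3 y + x^2 y^2 + x y^3 + y^4)
≥ X ^ 4 / 2`. If `k i = k' i` take `j` with `k j ≠ k' j` and `β = 4 e_i + e_j`: the difference is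
`X ^ 4 |k j - k' j|`. -/
def S_MON : Prop := ∀ k k' : Wv, k ≠ k' → ∃ β : Fin 3 → ℕ, ∑ i, β i = 5 ∧ ∀ i,
  (k i : ℝ) ^ 4 / 2 ≤ |∏ j, (k j : ℝ) ^ β j - ∏ j, (k' j : ℝ) ^ β j| ∧
  (k' i : ℝ) ^ 4 / 2 ≤ |∏ j, (k j : ℝ) ^ β j - ∏ j, (k' j : ℝ) ^ β j|

/-- each monomial of degree five is a linear combination of finitely many integer translates of
`p`, with coefficients of sum zero (equivalently, of partial derivatives of `p` of positive
order) -/
def Span5 (p : Wv → ℝ) : Prop := ∃ N : ℕ, ∀ β : Fin 3 → ℕ, ∑ i, β i = 5 → ∃ c : Wv → ℝ,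
  ∑ y ∈ box N, c y = 0 ∧ ∀ x : Wv, ∏ i, (x i : ℝ) ^ β i = ∑ y ∈ box N, c y * p (x + y)

/-- (DEGC) the near-resonant triads of a polynomial dispersion relation.
Proof. If `m = 0` then `near = 0`. Let `m ≠ 0`, `R = 2 ^ (c + 1)`, `A` the set to be counted,
`P x = p x - p (x + m) + p m` (`= p x + p (-(x + m)) + p m`, `p` odd), `PolyD D P`. On `A`:
`|P k| < mx ^ (τ/2) ≤ R ^ τ =: h`. By CNT3 it remains to count the `k ∈ A` with `|P (k + y)| ≤ h` for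
all `y ∈ box N`. For these, for every `β` with sum `5`,
`|k ^ β - (k + m) ^ β| = |∑_y c_y P (k + y)| ≤ C₁ h` (the constant `p m` drops out as `∑ c_y = 0`;
`C₁` the maximum of `∑ |c_y|` over the 21 multi-indices), so by MON (`k ≠ k + m`) all
`(k i) ^ 4, (k i + m i) ^ 4 ≤ 2 C₁ R ^ τ`, hence `nsq k, nsq (k + m), nsq m ≤ C₂ R ^ (τ / 2)`, but
one of them is `≥ 4 ^ c = R ^ 2 / 4`: `R ^ (2 - τ/2) ≤ 4 C₂`, `R ≤ R₀`. For `R > R₀` there is no
such `k`, for `R ≤ R₀` at most `(2 R₀ + 1) ^ 3`. -/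
def S_DEGC : Prop := S_CNT3 → S_MON → ∀ (p : Wv → ℝ) (D : ℕ), (∀ k, p (-k) = -p k) → PolyD D p →
  Span5 p → ∀ τ : ℝ, 0 < τ → τ < 4 → ∃ B : ℝ, DegG (near p 1 τ) B

/-- the dispersion relation of `(∂₁ ∂₂ ∂₃) ^ 5` (up to sign) -/
def pex (k : Wv) : ℝ := ((k 0 : ℝ) * (k 1 : ℝ) * (k 2 : ℝ)) ^ 5

/-- (EX5) the example.
Proof. `N = 5`. In one variable each `x ^ a`, `a ≤ 5`, is `∑_{j ≤ 5} c_j (x + j) ^ 5` (explicit
rational `c_j`, solve the linear system, `ring`), with `∑ c_j = 0` if `a < 5`. Take products; since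
`β` has sum `5` at least one `β i < 5` (indeed two). `PolyD 5` and oddness are clear. -/
def S_EX5 : Prop := (∀ k, pex (-k) = -pex k) ∧ PolyD 5 pex ∧ Span5 pex

end Pool.Agent.U136.DX
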