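import Pool.Agent.U136.DX.Fin
import Pool.Agent.U212.DX.POL
import Pool.Agent.U397.DX.DSP
import Pool.Agent.U962.DX.LAP1
import Pool.Agent.U975.DX.EV

set_option autoImplicit false

/-! Project DX: the polynomials. -/

namespace Pool.Agent.U136.DX

open MeasureTheory Pool.Agent.N983.RT Pool.Agent.U136.DS Pool.Agent.U29.EU

/-- polynomials whose partial derivatives span the monomials of degree five -/
theorem qpoly (P : MvPolynomial (Fin 3) ℝ) (hodd : ∀ k : Wv, ev P (-k) = -ev P k)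
    (hS : SpanQ P) (ν ε : ℝ) (hν : 0 < ν) (hε : ε ≠ 0) : GWPD ν (fun k => ε * ev P k) :=
  ppoly Pool.Agent.U212.DX.t_POL Pool.Agent.U397.DX.t_DSP P hodd hS ν ε hν hε

/-- `(e · ∇) Δ ^ m` plus terms of lower order -/
theorem qlap (hLAPR : S_LAPR) (hTOP : S_TOP) (hHOM : S_HOM) (e : Fin 3 → ℝ) (m : ℕ) (he : e ≠ 0)
    (hm : 5 ≤ m) (q : MvPolynomial (Fin 3) ℝ) (hq : ∀ k : Wv, ev q (-k) = -ev q k)
    (hd : q.totalDegree < 2 * m + 1) (ν : ℝ) (hν : 0 < ν) :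
    GWPD ν (fun k => (∑ i, e i * (k i : ℝ)) * nsq k ^ m + ev q k) :=
  plap Pool.Agent.U212.DX.t_POL Pool.Agent.U397.DX.t_DSP Pool.Agent.U962.DX.t_LAP1 hLAPR
    Pool.Agent.U975.DX.t_EV hTOP hHOM e m he hm q hq hd ν hν

/-- the operator `ε ∂₁ Δ ^ 5` -/
theorem q11 (ν ε : ℝ) (hν : 0 < ν) (hε : ε ≠ 0) :
    GWPD ν (fun k => ε * ((k 0 : ℝ) * nsq k ^ 5)) := by
  have h1 := qpoly (lapP (fun i => if i = 0 then 1 else 0) 5)
    (ev_odd_lap Pool.Agent.U975.DX.t_EV _ 5) Pool.Agent.U962.DX.t_LAP1 ν ε hν hε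
  have h2 : (fun k => ε * ev (lapP (fun i => if i = 0 then 1 else 0) 5) k) =
      fun k : Wv => ε * ((k 0 : ℝ) * nsq k ^ 5) := by
    funext k
    rw [Pool.Agent.U975.DX.t_EV.1]
    simp
  rwa [h2] at h1

end Pool.Agent.U136.DX
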