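import Pool.Agent.U136.DX.Stm2

set_option autoImplicit false

/-! Project DX: polynomials whose partial derivatives span the quintic forms; the family
`(e · ∇) Δ ^ m`, `m ≥ 5`, `e ≠ 0`. -/

namespace Pool.Agent.U136.DX

open MeasureTheory Pool.Agent.N983.RT Pool.Agent.U136.DS MvPolynomial

/-- the partial derivatives of `P` of order at least one -/
noncomputable def Der (P : MvPolynomial (Fin 3) ℝ) : Set (MvPolynomial (Fin 3) ℝ) :=
  {Q | ∃ l : List (Fin 3), l ≠ [] ∧ Q = l.foldr (fun i R => pderiv i R) P}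

/-- the partial derivatives of `P` of order at least one span all monomials of degree five -/
def SpanQ (P : MvPolynomial (Fin 3) ℝ) : Prop := ∀ β : Fin 3 → ℕ, ∑ i, β i = 5 →
  ∏ i, X i ^ β i ∈ Submodule.span ℝ (Der P)

/-- (DSP) derivatives are combinations of integer translates.
Proof. (a) For a polynomial `q` of one variable of degree `≤ D` there are numbers `w_0, ..., w_D`,
depending on `D` only, with `q'(t) = ∑_j w_j q(t + j)` for all real `t` (Lagrange interpolation at
`t, ..., t + D`); `q = 1` gives `∑ w_j = 0`. So `ev (pderiv i R) x = ∑_j w_j ev R (x + j e_i)`.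
(b) Let `T` be the set of the `f : Wv → ℝ` for which there are `N`, `c` with
`∑ y ∈ box N, c y = 0` and `f x = ∑ y ∈ box N, c y * ev P (x + y)` for all `x`. `T` is closed under
sums and multiples (enlarge `N`, extend `c` by zero). By induction on the list `l`, `ev` of each
element of `Der P` is in `T`: if `R = P` take `c (j e_i) = w_j`, otherwise insert the representation
of `R` into (a); the new coefficients are the products, of sum `0`. -/
def S_DSP : Prop := ∀ P : MvPolynomial (Fin 3) ℝ, SpanQ P → Span5 (ev P)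

/-- the polynomial `(e · x) |x| ^ (2 m)` -/
noncomputable def lapP (e : Fin 3 → ℝ) (m : ℕ) : MvPolynomial (Fin 3) ℝ :=
  (∑ i, C (e i) * X i) * (∑ i, X i ^ 2) ^ m

/-- (LAP1) the case `x₀ |x| ^ 10`.
Proof. An explicit table: each of the 21 monomials of degree five is a combination of derivatives
`∂ ^ γ`, `|γ| = 6`, of `x₀ |x| ^ 10 = ∑_{i+j+k=5} 5!/(i! j! k!) x₀^(2i+1) x₁^(2j) x₂^(2k)`. Table
(coefficients of `∂ ^ γ`) in Pool/Agent/U136/DX/table.txt. -/
def S_LAP1 : Prop := SpanQ (lapP (fun i => if i = 0 then 1 else 0) 5)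

/-- (LAPR) all directions `e ≠ 0` and all `m ≥ 5`.
Proof. (a) `∑_i ∂_i² ((e · x) r ^ q) = 2 q (2 q + 3) (e · x) r ^ (q - 1)`, `r = |x|²`, so for `m > 5`
`lapP e 5` is a multiple of a derivative combination of `lapP e m`, and
`span (Der (lapP e 5)) ⊆ span (Der (lapP e m))` (the latter is closed under `pderiv`). (b) Let
`H` be the Householder reflection (or the identity) with `H e₀ = e / |e|`, `φ` the algebra
automorphism `X i ↦ ∑_j H i j X j` (`H` symmetric, `H² = 1`, `φ r = r`,
`φ X₀ = (e · x) / |e|`), so `lapP e 5 = |e| φ (lapP e₀ 5)`. Chain rule: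
`φ (pderiv j Q) = ∑_i H i j pderiv i (φ Q)` (induction on `Q`, or both sides are derivations composed
with `φ`), so `φ` maps `span (Der P)` into `span (Der (φ P))`. For a monomial `x ^ β` the quintic
form `φ⁻¹ (x ^ β)` is a combination of monomials of degree five, hence in `span (Der (lapP e₀ 5))`;
apply `φ`. -/
def S_LAPR : Prop := S_LAP1 → ∀ (e : Fin 3 → ℝ) (m : ℕ), e ≠ 0 → 5 ≤ m → SpanQ (lapP e m)

/-- (EV) the values.
Proof. Unfold. -/
def S_EV : Prop := (∀ (e : Fin 3 → ℝ) (m : ℕ) (k : Wv),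
    ev (lapP e m) k = (∑ i, e i * (k i : ℝ)) * nsq k ^ m) ∧
  ∀ P : MvPolynomial (Fin 3) ℝ, (∀ k : Wv, ev P (-k) = -ev P k) → ∀ ε : ℝ,
    (∀ k : Wv, ev (C ε * P) k = ε * ev P k)

end Pool.Agent.U136.DX
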