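import Pool.Agent.U136.DX.All
import Pool.Agent.U27.DX.LAPR
import Pool.Agent.U139.DX.TOP

set_option autoImplicit false

/-! Project DX: the family `(e · ∇) Δ ^ m`, `m ≥ 5`. -/

namespace Pool.Agent.U136.DX

open MeasureTheory Pool.Agent.N983.RT Pool.Agent.U136.DS Pool.Agent.U29.EU

/-- `(e · ∇) Δ ^ m` plus terms of lower order -/
theorem qlap' (e : Fin 3 → ℝ) (m : ℕ) (he : e ≠ 0) (hm : 5 ≤ m) (q : MvPolynomial (Fin 3) ℝ)
    (hq : ∀ k : Wv, ev q (-k) = -ev q k) (hd : q.totalDegree < 2 * m + 1) (ν : ℝ) (hν : 0 < ν) :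
    GWPD ν (fun k => (∑ i, e i * (k i : ℝ)) * nsq k ^ m + ev q k) :=
  qlap Pool.Agent.U27.DX.t_LAPR Pool.Agent.U139.DX.TOP.t_TOP Pool.Agent.U139.DX.TOP.t_HOM
    e m he hm q hq hd ν hν

end Pool.Agent.U136.DX
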