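import Pool.Agent.U136.DX.Stm5

set_option autoImplicit false

/-! Project DX, package PDG. -/

namespace Pool.Agent.U136.DX

open Pool.Agent.N983.RT MvPolynomial

theorem pd_s (e : Fin 3 → ℝ) (i : Fin 3) :
    pderiv i (∑ l, C (e l) * X l : MvPolynomial (Fin 3) ℝ) = C (e i) := by
  rw [map_sum, Finset.sum_eq_single i]
  · simp
  · intro b _ hb
    rw [pderiv_C_mul, pderiv_X_of_ne hb, mul_zero]
  · intro h
    exact absurd (Finset.mem_univ i) h

theorem pd_r (i : Fin 3) :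
    pderiv i (∑ l, X l ^ 2 : MvPolynomial (Fin 3) ℝ) = 2 * X i := by
  rw [map_sum, Finset.sum_eq_single i]
  · rw [pderiv_pow, pderiv_X_self]
    simp
  · intro b _ hb
    rw [pderiv_pow, pderiv_X_of_ne hb, mul_zero]
  · intro h
    exact absurd (Finset.mem_univ i) h

theorem pd1 (e : Fin 3 → ℝ) (m : ℕ) (i : Fin 3) : pderiv i (lapP e m) =
    C (e i) * (∑ l, X l ^ 2) ^ m +
      (∑ l, C (e l) * X l) * ((m : MvPolynomial (Fin 3) ℝ) * (∑ l, X l ^ 2) ^ (m - 1) * (2 * X i)) := by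
  unfold lapP
  rw [pderiv_mul, pd_s, pderiv_pow, pd_r]

theorem t_PDG0 : S_PDG := by
  intro e m hm k j
  obtain ⟨n, rfl⟩ : ∃ n, m = n + 2 := ⟨m - 2, by omega⟩
  unfold dE
  rw [map_sum]
  have h1 : ∀ i : Fin 3, pderiv j (C (e i) * pderiv i (lapP e (n + 2))) =
      C (e i) * (C (e i) * (((n + 2 : ℕ) : MvPolynomial (Fin 3) ℝ) * (∑ l, X l ^ 2) ^ (n + 1) * (2 * X j)) +
        (C (e j) * (((n + 2 : ℕ) : MvPolynomial (Fin 3) ℝ) * (∑ l, X l ^ 2) ^ (n + 1) * (2 * X i)) +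
          (∑ l, C (e l) * X l) * (((n + 2 : ℕ) : MvPolynomial (Fin 3) ℝ) *
            (((n + 1 : ℕ) : MvPolynomial (Fin 3) ℝ) * (∑ l, X l ^ 2) ^ n * (2 * X j)) * (2 * X i) +
            ((n + 2 : ℕ) : MvPolynomial (Fin 3) ℝ) * (∑ l, X l ^ 2) ^ (n + 1) *
              (2 * pderiv j (X i))))) := by
    intro i
    rw [pd1]
    have e1 : n + 2 - 1 = n + 1 := by omega
    have e2 : n + 1 - 1 = n := by omega
    have c1 : ∀ a : ℕ, pderiv j ((a : ℕ) : MvPolynomial (Fin 3) ℝ) = 0 := by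
      intro a
      exact Derivation.map_natCast _ a
    have c2 : pderiv j (2 : MvPolynomial (Fin 3) ℝ) = 0 := c1 2
    simp only [pderiv_mul, pderiv_C, map_add, pd_s, pderiv_pow, pd_r, e1, e2, c1, c2]
    ring
  simp only [h1]
  unfold ev GG
  have e3 : n + 2 - 1 = n + 1 := by omega
  have e4 : n + 2 - 2 = n := by omega
  rw [e3, e4]
  simp only [map_sum, map_mul, map_add, map_pow, eval_C, eval_X, map_natCast]
  have h2 : ∀ i : Fin 3, eval (fun i => (k i : ℝ)) (pderiv j (X i : MvPolynomial (Fin 3) ℝ)) =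
      if i = j then 1 else 0 := by
    intro i
    split_ifs with h
    · rw [h, pderiv_X_self]
      simp
    · rw [pderiv_X_of_ne h]
      simp
  have h3 : eval (fun i => (k i : ℝ)) (2 : MvPolynomial (Fin 3) ℝ) = 2 := by
    exact map_ofNat _ 2
  simp only [h2, h3]
  fin_cases j <;> simp [Fin.sum_univ_three] <;> ring

end Pool.Agent.U136.DX
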