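import Pool.Agent.U136.DX.Stm4

set_option autoImplicit false

/-! Project DX: separation of integer points by derivatives; the family `(e · ∇) Δ ^ m`, `m ≥ 3`
(orders `7, 9, 11, ...`). -/

namespace Pool.Agent.U136.DX

open MeasureTheory Pool.Agent.N983.RT Pool.Agent.U136.DS MvPolynomial

/-- finitely many combinations of integer translates of `p`, with coefficients of sum zero, separate
the integer points -/
def Sep (p : Wv → ℝ) : Prop := ∃ (N r : ℕ) (c : Fin r → Wv → ℝ) (κ X₀ : ℝ), 0 < κ ∧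
  (∀ j, ∑ y ∈ box N, c j y = 0) ∧ ∀ k k' : Wv, k ≠ k' → X₀ ≤ nsq k + nsq k' → ∃ j,
    κ * (nsq k + nsq k') ^ 2 ≤
      |∑ y ∈ box N, c j y * p (k + y) - ∑ y ∈ box N, c j y * p (k' + y)|

/-- (DEG2) the near-resonant triads of a polynomial dispersion relation.
Proof. As `t_DEGC` (Pool/Agent/U423/DX/DEGC.lean), with `Sep` instead of `Span5` and MON. If `m = 0`
then `near = 0`. Let `m ≠ 0`, `R = 2 ^ (c + 1)`, `A` the set to be counted,
`P x = p x - p (x + m) + p m`. On `A`: `|P k| < mx ^ (τ/2) ≤ R ^ τ =: h`. By CNT3 it remains to count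
the `k ∈ A` with `|P (k + y)| ≤ h` for all `y ∈ box N`. For these
`|∑_y c_j y p (k + y) - ∑_y c_j y p (k + m + y)| = |∑_y c_j y P (k + y)| ≤ C₁ h` for all `j`
(`∑ c_j = 0`), so `nsq k + nsq (k + m) < X₀` or `κ (nsq k + nsq (k + m)) ^ 2 ≤ C₁ R ^ τ`; since
`nsq m ≤ 2 (nsq k + nsq (k + m))` and the largest of the three is `≥ 4 ^ c = R ^ 2 / 4`, this bounds
`R` by some `R₀`. For `R > R₀` there is no such `k`, for `R ≤ R₀` at most `(2 R₀ + 1) ^ 3`. -/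
def S_DEG2 : Prop := S_CNT3 → ∀ (p : Wv → ℝ) (D : ℕ), (∀ k, p (-k) = -p k) → PolyD D p →
  Sep p → ∀ τ : ℝ, 0 < τ → τ < 4 → ∃ B : ℝ, DegG (near p 1 τ) B

/-- finitely many combinations of the partial derivatives of `P` of order at least one separate the
integer points -/
def SepQ (P : MvPolynomial (Fin 3) ℝ) : Prop :=
  ∃ (r : ℕ) (Q : Fin r → MvPolynomial (Fin 3) ℝ) (κ X₀ : ℝ), 0 < κ ∧
    (∀ j, Q j ∈ Submodule.span ℝ (Der P)) ∧
    ∀ k k' : Wv, k ≠ k' → X₀ ≤ nsq k + nsq k' →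
      ∃ j, κ * (nsq k + nsq k') ^ 2 ≤ |ev (Q j) k - ev (Q j) k'|

/-- (SEPD) derivatives are combinations of integer translates.
Proof. The lemmas before `t_DSP` in Pool/Agent/U397/DX/DSP.lean: for every `Q ∈ span (Der P)` there
are `N`, `c` with `∑ y ∈ box N, c y = 0` and `ev Q x = ∑ y ∈ box N, c y * ev P (x + y)`; take the
largest `N` and extend the `c j` by zero. -/
def S_SEPD : Prop := ∀ P : MvPolynomial (Fin 3) ℝ, SepQ P → Sep (ev P)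

/-- (CVX) the quadratic form inequality. With `E = |e|²`, `s = e · z`, `α = e · v`, `r = |z|²`,
`w = z · v`, `V = |v|²`: `α² r² + n r (E w² + 4 s α w + s² V) + 2 n (n - 1) s² w² ≥ 0` for `n ≥ 1`.
Proof. The Gram determinant of `e, z, v` is nonnegative: `(E r - s²) V ≥ E w² - 2 s α w + r α²`
(the difference is the square of the determinant of the matrix `(e, z, v)`, `ring` after expanding
the sums). Let `b² = E r - s² ≥ 0`. If `b² > 0` multiply by `b²` and insert: it remains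
`α² r² (b² + n s²) + 2 n r s α w (2 b² - s²) + n w² ((E r)² + 2 (n - 1) s² b²) ≥ 0`. As a quadratic
form in `(r α, w)` (`E r = s² + b²`) its determinant is
`n b² (b⁴ - n s² b² + (1 + 4 n + 2 n²) s⁴) ≥ 0`, its coefficients are nonnegative. If `b² = 0` the Gram
inequality gives `E w² - 2 s α w + r α² ≤ 0`, `s² = E r`; then (`E > 0`, else trivial)
`(E w - s α)² ≤ 0`, `E w = s α`, and all terms are nonnegative. -/
def S_CVX : Prop := ∀ n : ℕ, 1 ≤ n → ∀ e z v : Fin 3 → ℝ,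
  0 ≤ (∑ i, e i * v i) ^ 2 * (∑ i, z i ^ 2) ^ 2 +
    n * (∑ i, z i ^ 2) * ((∑ i, e i ^ 2) * (∑ i, z i * v i) ^ 2 +
      4 * (∑ i, e i * z i) * (∑ i, e i * v i) * (∑ i, z i * v i) +
      (∑ i, e i * z i) ^ 2 * ∑ i, v i ^ 2) +
    2 * n * (n - 1) * (∑ i, e i * z i) ^ 2 * (∑ i, z i * v i) ^ 2

/-- the gradient of `(e · ∇) ((e · x) |x| ^ (2 m))`, `m ≥ 2` -/
noncomputable def GG (e : Fin 3 → ℝ) (m : ℕ) (x : Fin 3 → ℝ) (j : Fin 3) : ℝ :=
  2 * m * (∑ i, e i ^ 2) * (∑ i, x i ^ 2) ^ (m - 1) * x j +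
    4 * m * (∑ i, e i * x i) * (∑ i, x i ^ 2) ^ (m - 1) * e j +
    4 * m * (m - 1) * (∑ i, e i * x i) ^ 2 * (∑ i, x i ^ 2) ^ (m - 2) * x j

/-- (MONO) the gradient is strongly monotone.
Proof. Let `|x| ≥ |y|` (otherwise exchange), `v = x - y`, `z t = y + t v`,
`ψ t = ∑_j GG e m (z t) j * v j = 2 m E r ^ n w + 4 m s r ^ n α + 4 m n s² r ^ (n - 1) w`, `n = m - 1`,
`r = |z t|²`, `w = z t · v`, `s = e · z t`, `α = e · v`, `r' = 2 w`, `w' = V`, `s' = α`. Then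
`ψ' = 2 m (E (2 n r ^ (n-1) w² + r ^ n V) + 2 α² r ^ n + 8 n s α r ^ (n-1) w
+ 4 n (n-1) r ^ (n-2) s² w² + 2 n s² r ^ (n-1) V) ≥ 2 m E r ^ n V` by CVX times `2 r ^ (n - 2)`
(`n ≥ 2`; for `n = 1` the term with `n - 1` is absent, divide by `r` or treat `r = 0` apart). For
`3/4 ≤ t ≤ 1` one has `|z t| ≥ |x| - |v| / 4 ≥ |x| / 2`. Mean value theorem:
`ψ 1 - ψ (3/4) ≥ (1/4) 2 m E (|x|² / 4) ^ n V`, `ψ (3/4) ≥ ψ 0`. So `c = m / 4 ^ m` will do. (Only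
`m ≥ 3` is needed.) -/
def S_MONO : Prop := S_CVX → ∀ m : ℕ, 3 ≤ m → ∃ c : ℝ, 0 < c ∧ ∀ e x y : Fin 3 → ℝ,
  c * (∑ i, e i ^ 2) * ((∑ i, x i ^ 2) ^ (m - 1) + (∑ i, y i ^ 2) ^ (m - 1)) *
      ∑ i, (x i - y i) ^ 2 ≤
    ∑ j, (GG e m x j - GG e m y j) * (x j - y j)

/-- the derivative in the direction `e` -/
noncomputable def dE (e : Fin 3 → ℝ) (P : MvPolynomial (Fin 3) ℝ) : MvPolynomial (Fin 3) ℝ :=
  ∑ i, C (e i) * pderiv i P

/-- (PDG) the second derivatives of `lapP`.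
Proof. Product rule and chain rule (`Derivation.leibniz`, `Derivation.leibniz_pow`, `pderiv_X`),
then evaluate; `m ≥ 2`. -/
def S_PDG : Prop := ∀ (e : Fin 3 → ℝ) (m : ℕ), 2 ≤ m → ∀ (k : Wv) (j : Fin 3),
  ev (pderiv j (dE e (lapP e m))) k = GG e m (fun i => (k i : ℝ)) j

/-- (LIPQ) second derivatives of a polynomial of degree at most `D + 3` are Lipschitz with constant
`C (1 + |x|² + |y|²) ^ (D / 2)`; here the square of the inequality.
Proof. `pderiv j (dE e q)` has total degree at most `D + 1` (monomials). For a monomial of degree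
`a ≤ D + 1`: `|x ^ γ - y ^ γ| ≤ a M ^ (a - 1) max_i |x i - y i|`, `M = max (1, |x i|, |y i|)`
(telescoping); sum over the support; `M² ≤ 1 + |x|² + |y|²`. -/
def S_LIPQ : Prop := ∀ (D : ℕ) (q : MvPolynomial (Fin 3) ℝ), q.totalDegree ≤ D + 3 →
  ∀ (e : Fin 3 → ℝ) (j : Fin 3), ∃ C : ℝ, 0 ≤ C ∧ ∀ k k' : Wv,
    (ev (pderiv j (dE e q)) k - ev (pderiv j (dE e q)) k') ^ 2 ≤
      C * (1 + nsq k + nsq k') ^ D * nsq (k - k')

/-- (SEPL) the derivatives of `lapP e m + q` separate the integer points.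
Proof. `r = 3`, `Q j = pderiv j (dE e (lapP e m + q))`, which is in the span of `Der`. Put
`S = nsq k + nsq k' ≥ 1`, `d = nsq (k - k') ≥ 1`, `n = m - 1 ≥ 2`. MONO and PDG:
`∑_j (g_j k - g_j k') (k - k')_j ≥ c |e|² (nsq k ^ n + nsq k' ^ n) d ≥ c' S ^ n d`. LIPQ with
`D + 3 = 2 m` (`D = 2 m - 3`): the contribution of `q` is at most `C (1 + S) ^ (D/2) d`, in squares
`C (1 + S) ^ (2 m - 3) d²`, while `(S ^ n) ^ 2 = S ^ (2 m - 2)`: for `S ≥ X₀` it is at most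
`c' S ^ n d / 2`. So `∑_j (Q_j k - Q_j k') (k - k')_j ≥ c' S ^ n d / 2`; since
`|(k - k')_j| ≤ sqrt d ≤ d`, some `j` has `|Q_j k - Q_j k'| ≥ c' S ^ n / 6 ≥ (c' / 6) S ^ 2`. -/
def S_SEPL : Prop := (∀ m : ℕ, 3 ≤ m → ∃ c : ℝ, 0 < c ∧ ∀ e x y : Fin 3 → ℝ,
    c * (∑ i, e i ^ 2) * ((∑ i, x i ^ 2) ^ (m - 1) + (∑ i, y i ^ 2) ^ (m - 1)) *
        ∑ i, (x i - y i) ^ 2 ≤ ∑ j, (GG e m x j - GG e m y j) * (x j - y j)) →
  S_PDG → S_LIPQ → ∀ (e : Fin 3 → ℝ) (m : ℕ), e ≠ 0 → 3 ≤ m →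
    ∀ q : MvPolynomial (Fin 3) ℝ, q.totalDegree ≤ 2 * m → SepQ (lapP e m + q)

end Pool.Agent.U136.DX
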