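import Pool.Agent.U136.DX.All
import Pool.Agent.U136.DX.PDG0
import Pool.Agent.U770.DX.LIPQ
import Pool.Agent.U810.DX.MONO
import Pool.Agent.U925.DX.DEG2
import Pool.Agent.U319.DX.SEPD
import Pool.Agent.U801.DX.CVX
import Pool.Agent.U390.DX.SEPL

set_option autoImplicit false

/-! Project DX: the family `(e · ∇) Δ ^ m`, `m ≥ 3`, and the separation criterion. -/

namespace Pool.Agent.U136.DX

open MeasureTheory Pool.Agent.N983.RT Pool.Agent.U136.DS Pool.Agent.U29.EU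

/-- polynomials whose derivatives separate the integer points -/
theorem spoly (P : MvPolynomial (Fin 3) ℝ) (hodd : ∀ k : Wv, ev P (-k) = -ev P k)
    (hS : SepQ P) (ν ε : ℝ) (hν : 0 < ν) (hε : ε ≠ 0) : GWPD ν (fun k => ε * ev P k) := by
  obtain ⟨⟨D, hD⟩, hg⟩ := Pool.Agent.U212.DX.t_POL P
  obtain ⟨B, hB⟩ := Pool.Agent.U925.DX.t_DEG2 Pool.Agent.U739.DX.CNT3.t_CNT3 (ev P) D hodd hD
    (Pool.Agent.U319.DX.t_SEPD P hS) (7 / 2) (by norm_num) (by norm_num)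
  exact crit2 _ (disp_smul _ ε ⟨hodd, hg⟩) |ε| (7 / 2) B (abs_pos.2 hε) (by norm_num)
    (degG_smul (ev P) _ B ε hε hB) ν hν

/-- `(e · ∇) Δ ^ m`, `m ≥ 3`, plus terms of lower order -/
theorem slap (e : Fin 3 → ℝ) (m : ℕ) (he : e ≠ 0) (hm : 3 ≤ m) (q : MvPolynomial (Fin 3) ℝ)
    (hq : ∀ k : Wv, ev q (-k) = -ev q k) (hd : q.totalDegree ≤ 2 * m) (ν : ℝ) (hν : 0 < ν) :
    GWPD ν (fun k => (∑ i, e i * (k i : ℝ)) * nsq k ^ m + ev q k) := by
  have h1 : SepQ (lapP e m + q) := Pool.Agent.U390.DX.t_SEPL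
    (Pool.Agent.U810.DX.MONO.t_MONO Pool.Agent.U801.DX.t_CVX) t_PDG0 Pool.Agent.U770.DX.t_LIPQ
    e m he hm q hd
  have hev : ∀ k : Wv, ev (lapP e m + q) k = ev (lapP e m) k + ev q k := by
    intro k
    unfold ev
    exact map_add _ _ _
  have h2 := spoly (lapP e m + q) (fun k => by
    rw [hev, hev, hq, ev_odd_lap Pool.Agent.U975.DX.t_EV]
    ring) h1 ν 1 hν one_ne_zero
  have h3 : (fun k => (1 : ℝ) * ev (lapP e m + q) k) =
      fun k : Wv => (∑ i, e i * (k i : ℝ)) * nsq k ^ m + ev q k := by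
    funext k
    rw [one_mul, hev, Pool.Agent.U975.DX.t_EV.1]
  rwa [h3] at h2

end Pool.Agent.U136.DX
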