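import Pool.Agent.U136.DX.Stm
import Pool.Agent.U136.DS.Asm

set_option autoImplicit false

/-! Project DX: the assembly. -/

namespace Pool.Agent.U136.DX

open MeasureTheory Pool.Agent.N983.RT Pool.Agent.U136.DS Pool.Agent.U29.EU

theorem near_swap12 (lam : Wv → ℝ) (c₁ τ : ℝ) (k l m : Wv) :
    near lam c₁ τ k l m = near lam c₁ τ l k m := by
  unfold near
  have e1 : mx k l m = mx l k m := by unfold mx; rw [max_left_comm]
  have e2 : lam k + lam l + lam m = lam l + lam k + lam m := by ring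
  rw [e1, e2]
  congr 1
  exact propext ⟨fun h => ⟨h.2.1, h.1, h.2.2⟩, fun h => ⟨h.2.1, h.1, h.2.2⟩⟩

theorem near_swap23 (lam : Wv → ℝ) (c₁ τ : ℝ) (k l m : Wv) :
    near lam c₁ τ k l m = near lam c₁ τ k m l := by
  unfold near
  have e1 : mx k l m = mx k m l := by unfold mx; rw [max_comm (nsq l)]
  have e2 : lam k + lam l + lam m = lam k + lam m + lam l := by ring
  rw [e1, e2]
  congr 1
  exact propext ⟨fun h => ⟨h.1, h.2.2.1, h.2.1, h.2.2.2⟩, fun h => ⟨h.1, h.2.2.1, h.2.1, h.2.2.2⟩⟩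

theorem near_le (lam : Wv → ℝ) (c₁ τ : ℝ) (k l m : Wv) : |near lam c₁ τ k l m| ≤ 1 := by
  unfold near
  split_ifs <;> simp

theorem near_zero (lam : Wv → ℝ) (c₁ τ : ℝ) (k l m : Wv) (h : k = 0 ∨ l = 0 ∨ m = 0) :
    near lam c₁ τ k l m = 0 := by
  unfold near
  rw [if_neg]
  rintro ⟨h1, h2, h3, _⟩
  rcases h with h | h | h
  · exact h1 h
  · exact h2 h
  · exact h3 h

theorem ab_sq (u : Fld) (k : Wv) : ab u k ^ 2 = ∑ i, ‖u k i‖ ^ 2 := by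
  unfold ab
  exact Real.sq_sqrt (Finset.sum_nonneg fun i _ => by positivity)

/-- the near-resonant triads, critical case -/
theorem nbc (hSYM : S_SYM) (hTRI : S_TRI) (lam : Wv → ℝ) (c₁ τ B : ℝ)
    (hdeg : DegG (near lam c₁ τ) B) (s : ℕ) (hs : 1 ≤ s) (ε : ℝ) (hε : 0 < ε) :
    ∃ C : ℝ, 0 ≤ C ∧ ∀ (n : ℕ) (u : Fld), Adm u → (∀ k, k ∉ cub n → u k = 0) →
      ‖form (near lam c₁ τ) s n u‖ ≤ ε * Er ((s : ℝ) + 1) n u + C * (En 1 n u * En s n u) := by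
  obtain ⟨C₁, hC₁, h1⟩ := hSYM (near lam c₁ τ) (near_swap23 lam c₁ τ) s hs
  obtain ⟨C₂, hC₂, h2⟩ := hTRI (near lam c₁ τ) B (near_swap12 lam c₁ τ) (near_swap23 lam c₁ τ)
    (near_le lam c₁ τ) (near_zero lam c₁ τ) hdeg s
  refine ⟨(C₁ * C₂) ^ 2 / (4 * ε), by positivity, fun n u hu hn => ?_⟩
  have h3 := h1 n u hu hn
  have hab : ∀ k, k ∉ cub n → ab u k = 0 := by
    intro k hk
    unfold ab
    rw [hn k hk]
    simp
  have h4 := h2 n (ab u) (fun k => Real.sqrt_nonneg _) hab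
  have e1 : ∑ k ∈ cub n, nsq k * ab u k ^ 2 = En 1 n u := by
    unfold En
    exact Finset.sum_congr rfl fun k _ => by rw [ab_sq, pow_one]
  have e2 : ∑ k ∈ cub n, nsq k ^ s * ab u k ^ 2 = En s n u := by
    unfold En
    exact Finset.sum_congr rfl fun k _ => by rw [ab_sq]
  have e3 : ∑ k ∈ cub n, nsq k ^ (s + 1) * ab u k ^ 2 = Er ((s : ℝ) + 1) n u := by
    unfold Er
    refine Finset.sum_congr rfl fun k _ => ?_
    rw [ab_sq]
    congr 1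
    rw [← Real.rpow_natCast]
    push_cast
    rfl
  rw [e1, e2, e3] at h4
  have hE1 : 0 ≤ En 1 n u := by
    rw [← e1]
    exact Finset.sum_nonneg fun k _ => mul_nonneg (asm_nsq_nonneg k) (sq_nonneg _)
  have hEs : 0 ≤ En s n u := by
    rw [← e2]
    exact Finset.sum_nonneg fun k _ => mul_nonneg (pow_nonneg (asm_nsq_nonneg k) _) (sq_nonneg _)
  have hEr : 0 ≤ Er ((s : ℝ) + 1) n u := by
    rw [← e3]
    exact Finset.sum_nonneg fun k _ => mul_nonneg (pow_nonneg (asm_nsq_nonneg k) _) (sq_nonneg _)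
  set x := Real.sqrt (En 1 n u) with hx
  set y := Real.sqrt (En s n u) with hy
  set z := Real.sqrt (Er ((s : ℝ) + 1) n u) with hz
  have hx2 : x ^ 2 = En 1 n u := Real.sq_sqrt hE1
  have hy2 : y ^ 2 = En s n u := Real.sq_sqrt hEs
  have hz2 : z ^ 2 = Er ((s : ℝ) + 1) n u := Real.sq_sqrt hEr
  have h5 : ‖form (near lam c₁ τ) s n u‖ ≤ C₁ * (C₂ * x * (y * z)) :=
    h3.trans (mul_le_mul_of_nonneg_left h4 hC₁)
  refine h5.trans ?_
  rw [← hx2, ← hy2, ← hz2]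
  have h6 : C₁ * (C₂ * x * (y * z)) = (C₁ * C₂ * x * y) * z := by ring
  rw [h6]
  have h7 : (C₁ * C₂) ^ 2 / (4 * ε) * (x ^ 2 * y ^ 2) = (C₁ * C₂ * x * y) ^ 2 / (4 * ε) := by
    ring
  rw [h7]
  have h8 : 0 ≤ (2 * ε * z - C₁ * C₂ * x * y) ^ 2 / (4 * ε) := by positivity
  have h9 : (2 * ε * z - C₁ * C₂ * x * y) ^ 2 / (4 * ε) =
      ε * z ^ 2 + (C₁ * C₂ * x * y) ^ 2 / (4 * ε) - (C₁ * C₂ * x * y) * z := by
    field_simp
    ring
  linarith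

/-- the criterion, critical case -/
theorem critC (hSUM : S_SUM) (hALG : S_ALG) (hRHS : S_RHS) (hODE : S_ODED)
    (hCMP : S_CMPD) (hUNQ : S_UNQD) (hS3 : S_S3) (hS4 : S_S4) (hQB : S_QB) (hRB : S_RB)
    (hDQ : S_DQ) (hSYM : S_SYM) (hTRI : S_TRI) (hAPR : S_APRC) (ν : ℝ) (lam : Wv → ℝ)
    (c₁ τ B : ℝ) (hν : 0 < ν) (hlam : Disp lam) (hc : 0 < c₁) (hτ : 3 < τ) (hτ' : τ < 4)
    (hdeg : DegG (near lam c₁ τ) B) : GWPD ν lam := by
  intro u₀ hA hR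
  have hest : ∀ s : ℕ, 2 ≤ s → ∀ M ε : ℝ, 0 < ε → ∃ C : ℝ, ∀ (n : ℕ) (u : Fld), Adm u →
      (∀ k, k ∉ cub n → u k = 0) → En 0 n u ≤ M →
        ‖form (hnf lam c₁ τ) s n u‖ ≤ ε * En s n u + C ∧
        ‖dform (hnf lam c₁ τ) s n u (rhs (cutg n one) ν 1 u)‖ ≤ ε * Er ((s : ℝ) + 1) n u + C ∧
        ‖form (near lam c₁ τ) s n u‖ ≤
          ε * Er ((s : ℝ) + 1) n u + C * (1 + En 1 n u * En s n u) := by
    intro s hs M ε hε
    obtain ⟨C₁, h1⟩ := hQB hS3 lam c₁ τ hc hτ hτ' s hs M ε hε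
    obtain ⟨C₂, h2⟩ := hRB hS3 hS4 lam c₁ τ ν hc hτ hτ' hν s hs M ε hε
    obtain ⟨C₃, hC₃, h3⟩ := nbc hSYM hTRI lam c₁ τ B hdeg s (by omega) ε hε
    refine ⟨max C₁ (max C₂ C₃), fun n u hu hn hM => ⟨?_, ?_, ?_⟩⟩
    · exact (h1 n u hu hn hM).trans (by linarith [le_max_left C₁ (max C₂ C₃)])
    · exact (h2 n u hu hn hM).trans
        (by linarith [(le_max_left C₂ C₃).trans (le_max_right C₁ (max C₂ C₃))])
    · have h4 : C₃ ≤ max C₁ (max C₂ C₃) := (le_max_right C₂ C₃).trans (le_max_right _ _)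
      have hE : ∀ r : ℕ, 0 ≤ En r n u := by
        intro r
        unfold En
        exact Finset.sum_nonneg fun k _ => mul_nonneg (pow_nonneg (asm_nsq_nonneg k) _)
          (Finset.sum_nonneg fun i _ => by positivity)
      have h5 : 0 ≤ En 1 n u * En s n u := mul_nonneg (hE 1) (hE s)
      have h6 : 0 ≤ max C₁ (max C₂ C₃) := hC₃.trans h4
      refine (h3 n u hu hn).trans ?_
      nlinarith [mul_le_mul_of_nonneg_right h4 h5]
  have h1 : ∀ n : ℕ, ∃ u : ℝ → Fld, IsSolD (cutg n one) ν lam u ∧ u 0 = cut n u₀ ∧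
      ∀ t, 0 ≤ t → ∀ k, k ∉ cub n → u t k = 0 :=
    fun n => hODE hALG ν lam n hν hlam u₀ hA
  choose U hUsol hU0 hUcub using h1
  have hbd : ∀ (T : ℝ) (s : ℕ), ∃ C : ℝ, ∀ n t, 0 ≤ t → t ≤ T → ∀ k i,
      (1 + nsq k) ^ s * ‖U n t k i‖ ≤ C := by
    intro T s
    obtain ⟨C₀, hC₀⟩ := hAPR hSUM hALG ν lam c₁ τ hν hlam hc hest hDQ u₀ hA hR 0 T
    obtain ⟨C₁, hC₁⟩ := hAPR hSUM hALG ν lam c₁ τ hν hlam hc hest hDQ u₀ hA hR (2 * s) T
    refine ⟨Real.sqrt (2 ^ (2 * s) * (C₀ + C₁)), fun n t ht hT k i => ?_⟩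
    exact asm_pt n s (U n t) (hUcub n t ht) C₀ C₁
      (hC₀ n (U n) (hUsol n) (hU0 n) (hUcub n) t ht hT)
      (hC₁ n (U n) (hUsol n) (hU0 n) (hUcub n) t ht hT) k i
  obtain ⟨u, hu, hu0⟩ := hCMP hSUM hRHS ν lam hν hlam u₀ hA hR U hUsol hU0 hbd
  exact ⟨u, hu, hu0, fun v hv hv0 t ht => hUNQ hSUM ν lam hν hlam v u hv hu (by rw [hv0, hu0]) t ht⟩

/-- amplitudes -/
theorem degG_smul (p : Wv → ℝ) (τ B ε : ℝ) (hε : ε ≠ 0) (h : DegG (near p 1 τ) B) :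
    DegG (near (fun k => ε * p k) |ε| τ) B := by
  intro c m
  have h1 := h c m
  simp only [near_smul p ε τ hε]
  convert h1

/-- a polynomial in each coordinate grows at most polynomially -/
def S_POLG : Prop := ∀ (p : Wv → ℝ) (D : ℕ), PolyD D p → ∃ (q : ℕ) (C : ℝ), ∀ k, |p k| ≤ C * (1 + nsq k) ^ q

end Pool.Agent.U136.DX
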