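import Pool.Agent.U136.DX.Stm3

set_option autoImplicit false

/-! Project DX: terms of lower order. -/

namespace Pool.Agent.U136.DX

open MeasureTheory Pool.Agent.N983.RT Pool.Agent.U136.DS MvPolynomial

/-- (TOP) only the principal part matters.
Proof. Every element of `Der p` is `∂ ^ l p`, homogeneous of degree `d - |l|` (or `0`), so, taking the
homogeneous component of degree `5`, every monomial of degree `5` is a combination of the `∂ ^ l p`
with `|l| = d - 5`; in particular `d > 5` (a nonzero element of the span of polynomials of degree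
`< 5` has degree `< 5`). Every monomial `x ^ β` of degree `n ≤ 5` is a multiple of a derivative of
order `5 - n` of a monomial of degree `5`, hence `x ^ β = ∑_{|l| = d - n} c_l ∂ ^ l p`. Strong
induction on `n ≤ 5`: every monomial of degree `n` is in `span (Der (p + q))`. Indeed
`∑ c_l ∂ ^ l (p + q) = x ^ β + ∑ c_l ∂ ^ l q`, where `∂ ^ l q` has degree `< n` (or vanishes), so it
is a combination of monomials of degree `< n`, in the span by induction. -/
def S_TOP : Prop := ∀ (d : ℕ) (p q : MvPolynomial (Fin 3) ℝ), p.IsHomogeneous d →
  q.totalDegree < d → SpanQ p → SpanQ (p + q)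

/-- (HOM) `(e · x) |x| ^ (2 m)` is homogeneous -/
def S_HOM : Prop := ∀ (e : Fin 3 → ℝ) (m : ℕ), (lapP e m).IsHomogeneous (2 * m + 1)

end Pool.Agent.U136.DX
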