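import Pool.Agent.U136.DX.Asm
import Pool.Agent.U136.DX.Stm4
import Pool.Agent.U136.DS.Final
import Pool.Agent.U333.DX.SYM
import Pool.Agent.U123.DX.TRI
import Pool.Agent.U187.DX.APRC
import Pool.Agent.U739.DX.CNT3
import Pool.Agent.U399.DX.MON
import Pool.Agent.U423.DX.DEGC
import Pool.Agent.U109.DX.EX5

set_option autoImplicit false

/-! Project DX: the parts are put together. -/

namespace Pool.Agent.U136.DX

open MeasureTheory Pool.Agent.N983.RT Pool.Agent.U136.DS Pool.Agent.U29.EU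

theorem degG_mono (lam : Wv → ℝ) (c₁ τ τ' B : ℝ) (hc : 0 < c₁) (hτ : τ' ≤ τ)
    (h : DegG (near lam c₁ τ) B) : DegG (near lam c₁ τ') B := by
  classical
  intro c m
  refine le_trans ?_ (h c m)
  have hsub : ((cub (2 ^ (c + 1))).filter fun k => near lam c₁ τ' k (-(k + m)) m ≠ 0 ∧
        (4 : ℝ) ^ c ≤ mx k (-(k + m)) m ∧ mx k (-(k + m)) m < (4 : ℝ) ^ (c + 1)) ⊆
      ((cub (2 ^ (c + 1))).filter fun k => near lam c₁ τ k (-(k + m)) m ≠ 0 ∧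
        (4 : ℝ) ^ c ≤ mx k (-(k + m)) m ∧ mx k (-(k + m)) m < (4 : ℝ) ^ (c + 1)) := by
    intro k hk
    have hk' := Finset.mem_filter.1 hk
    refine Finset.mem_filter.2 ⟨hk'.1, ?_, hk'.2.2⟩
    have h1 := hk'.2.1
    unfold near at h1 ⊢
    split_ifs at h1 with h2
    · rw [if_pos]
      · exact one_ne_zero
      · refine ⟨h2.1, h2.2.1, h2.2.2.1, h2.2.2.2.trans_le ?_⟩
        refine mul_le_mul_of_nonneg_left (Real.rpow_le_rpow_of_exponent_le ?_ (by linarith)) hc.le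
        unfold mx
        exact (one_le_nsq' h2.1).trans (le_max_left _ _)
    · exact absurd rfl h1
  have hle := Finset.card_le_card hsub
  have h3 : (((cub (2 ^ (c + 1))).filter fun k => near lam c₁ τ' k (-(k + m)) m ≠ 0 ∧
        (4 : ℝ) ^ c ≤ mx k (-(k + m)) m ∧ mx k (-(k + m)) m < (4 : ℝ) ^ (c + 1)).card : ℝ) ≤
      (((cub (2 ^ (c + 1))).filter fun k => near lam c₁ τ k (-(k + m)) m ≠ 0 ∧
        (4 : ℝ) ^ c ≤ mx k (-(k + m)) m ∧ mx k (-(k + m)) m < (4 : ℝ) ^ (c + 1)).card : ℝ) := by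
    exact_mod_cast hle
  convert h3

/-- the criterion: at most `B R ^ 2` near-resonant triads of size `R` through each wave vector -/
theorem crit2 (lam : Wv → ℝ) (hlam : Disp lam) (c₁ τ B : ℝ) (hc : 0 < c₁) (hτ : 3 < τ)
    (hdeg : DegG (near lam c₁ τ) B) (ν : ℝ) (hν : 0 < ν) : GWPD ν lam :=
  critC Pool.Agent.U448.RT.t_SUM t_ALG Pool.Agent.U913.RT.t_RHS
    Pool.Agent.U97.DS.t_ODED t_CMPD Pool.Agent.U208.DS.t_UNQD Pool.Agent.U401.DS.t_S3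
    Pool.Agent.U460.DS.t_S4 Pool.Agent.U451.DS.t_QB Pool.Agent.U692.DS.t_RB t_DQ
    Pool.Agent.U333.DX.t_SYM Pool.Agent.U123.DX.t_TRI Pool.Agent.U187.DX.t_APRC
    ν lam c₁ (min τ (7 / 2)) B hν hlam hc (lt_min hτ (by norm_num))
    (lt_of_le_of_lt (min_le_right _ _) (by norm_num))
    (degG_mono lam c₁ τ _ B hc (min_le_left _ _) hdeg)

/-- polynomial dispersion relations -/
theorem pspan (p : Wv → ℝ) (D : ℕ) (hodd : ∀ k, p (-k) = -p k) (hD : PolyD D p)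
    (hg : ∃ (q : ℕ) (C : ℝ), ∀ k, |p k| ≤ C * (1 + nsq k) ^ q) (hS : Span5 p) (ν ε : ℝ)
    (hν : 0 < ν) (hε : ε ≠ 0) : GWPD ν (fun k => ε * p k) := by
  obtain ⟨B, hB⟩ := Pool.Agent.U423.DX.DEGC.t_DEGC Pool.Agent.U739.DX.CNT3.t_CNT3
    Pool.Agent.U399.DX.t_MON p D hodd hD hS (7 / 2) (by norm_num) (by norm_num)
  exact crit2 _ (disp_smul _ ε ⟨hodd, hg⟩) |ε| (7 / 2) B (abs_pos.2 hε) (by norm_num)
    (degG_smul p _ B ε hε hB) ν hν

/-- polynomials whose partial derivatives span the monomials of degree five -/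
theorem ppoly (hPOL : S_POL) (hDSP : S_DSP) (P : MvPolynomial (Fin 3) ℝ)
    (hodd : ∀ k : Wv, ev P (-k) = -ev P k) (hS : SpanQ P) (ν ε : ℝ) (hν : 0 < ν) (hε : ε ≠ 0) :
    GWPD ν (fun k => ε * ev P k) := by
  obtain ⟨⟨D, hD⟩, hg⟩ := hPOL P
  exact pspan (ev P) D hodd hD hg (hDSP P hS) ν ε hν hε

/-- the example `ε (∂₁ ∂₂ ∂₃) ^ 5` -/
theorem pex5 (ν ε : ℝ) (hν : 0 < ν) (hε : ε ≠ 0) : GWPD ν (fun k => ε * pex k) := by
  obtain ⟨h1, h2, h3⟩ := Pool.Agent.U109.DX.t_EX5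
  refine pspan pex 5 h1 h2 ⟨15, 1, fun k => ?_⟩ h3 ν ε hν hε
  have hk : ∀ i : Fin 3, |(k i : ℝ)| ≤ 1 + nsq k := by
    intro i
    have h4 : (k i : ℝ) ^ 2 ≤ nsq k := by
      unfold nsq
      exact Finset.single_le_sum (f := fun i => (k i : ℝ) ^ 2) (fun j _ => sq_nonneg _)
        (Finset.mem_univ i)
    nlinarith [sq_nonneg (|(k i : ℝ)| - 1), sq_abs (k i : ℝ), abs_nonneg (k i : ℝ)]
  have h0 : 0 ≤ 1 + nsq k := (abs_nonneg _).trans (hk 0)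
  unfold pex
  rw [abs_pow, abs_mul, abs_mul, one_mul, show (15 : ℕ) = 3 * 5 by norm_num, pow_mul]
  refine pow_le_pow_left₀ (by positivity) ?_ 5
  calc |(k 0 : ℝ)| * |(k 1 : ℝ)| * |(k 2 : ℝ)| ≤ (1 + nsq k) * (1 + nsq k) * (1 + nsq k) :=
        mul_le_mul (mul_le_mul (hk 0) (hk 1) (abs_nonneg _) h0) (hk 2) (abs_nonneg _)
          (mul_nonneg h0 h0)
    _ = (1 + nsq k) ^ 3 := by ring

theorem ev_odd_lap (hEV : S_EV) (e : Fin 3 → ℝ) (m : ℕ) (k : Wv) :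
    ev (lapP e m) (-k) = -ev (lapP e m) k := by
  rw [hEV.1, hEV.1]
  have e1 : nsq (-k) = nsq k := by
    unfold nsq
    simp
  have e2 : ∑ i, e i * (((-k) i : ℤ) : ℝ) = -∑ i, e i * (k i : ℝ) := by
    rw [← Finset.sum_neg_distrib]
    exact Finset.sum_congr rfl fun i _ => by simp
  rw [e1, e2]
  ring

/-- `(e · ∇) Δ ^ m` plus terms of lower order -/
theorem plap (hPOL : S_POL) (hDSP : S_DSP) (hLAP1 : S_LAP1) (hLAPR : S_LAPR) (hEV : S_EV)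
    (hTOP : S_TOP) (hHOM : S_HOM) (e : Fin 3 → ℝ) (m : ℕ) (he : e ≠ 0) (hm : 5 ≤ m)
    (q : MvPolynomial (Fin 3) ℝ) (hq : ∀ k : Wv, ev q (-k) = -ev q k)
    (hd : q.totalDegree < 2 * m + 1) (ν : ℝ) (hν : 0 < ν) :
    GWPD ν (fun k => (∑ i, e i * (k i : ℝ)) * nsq k ^ m + ev q k) := by
  have h1 : SpanQ (lapP e m + q) := hTOP _ _ q (hHOM e m) hd (hLAPR hLAP1 e m he hm)
  have hev : ∀ k : Wv, ev (lapP e m + q) k = ev (lapP e m) k + ev q k := by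
    intro k
    unfold ev
    exact map_add _ _ _
  have h2 := ppoly hPOL hDSP (lapP e m + q) (fun k => by
    rw [hev, hev, hq, ev_odd_lap hEV]
    ring) h1 ν 1 hν one_ne_zero
  have h3 : (fun k => (1 : ℝ) * ev (lapP e m + q) k) =
      fun k : Wv => (∑ i, e i * (k i : ℝ)) * nsq k ^ m + ev q k := by
    funext k
    rw [one_mul, hev, hEV.1]
  rwa [h3] at h2

end Pool.Agent.U136.DX
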