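import Pool.Agent.U136.DX.Stm

set_option autoImplicit false

/-! Project DX: one more statement. -/

namespace Pool.Agent.U136.DX

open MeasureTheory Pool.Agent.N983.RT Pool.Agent.U136.DS

/-- the values of a polynomial at the wave vectors -/
noncomputable def ev (P : MvPolynomial (Fin 3) ℝ) (k : Wv) : ℝ :=
  MvPolynomial.eval (fun i => (k i : ℝ)) P

/-- (POL) polynomials have bounded degree on lines and polynomial growth.
Proof. Lines: `q = MvPolynomial.aeval (fun j => if j = i then Polynomial.X else Polynomial.C (k j)) P`,
`natDegree q ≤ P.totalDegree` (or any bound depending on `P` only, e.g. the sum over the support;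
induction on `P` over monomials and sums is enough). Growth: for monomials
`|k ^ γ| ≤ (1 + nsq k) ^ |γ|`, sums by induction (`C ≥ 0`, take the maximum of the exponents). -/
def S_POL : Prop := ∀ P : MvPolynomial (Fin 3) ℝ, (∃ D : ℕ, PolyD D (ev P)) ∧
  ∃ (q : ℕ) (C : ℝ), ∀ k, |ev P k| ≤ C * (1 + nsq k) ^ q

end Pool.Agent.U136.DX
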